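import Pool.Agent.H19.DMQ.Q1a
import Pool.Agent.H59.SM.K1

/-!
# The mean square over families of boxes and cosets: row Q1
-/

set_option autoImplicit false

open NumberField NumberField.InfinitePlace MeasureTheory

namespace Pool.Agent.H19.DMQ.Q1

open Pool.Agent.H25.HK Pool.Agent.H23.LB Pool.Agent.H23.LC Pool.Agent.H23.DM
open Pool.Agent.H27.TM (Dl Cls Maj M_RK M_MJ M_DL)
open Pool.Agent.H29.DW (dg Rl lf wv Pos rv)
open Pool.Agent.H29.TC (Gn LC cq dvs MC)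
open Pool.Agent.H31.SW (EE itg FF DD PP pF dK Pf GG)
open Pool.Agent.H31.SX (ND)
open Pool.Agent.H19.TMB.BL (one_le_PP)
open Pool.Agent.H19.DM.BL (one_le_Nf norm_cq_le FT_mono OQ_split)

/-- (Q1) the mean square over a family of boxes with small radii at a fixed position. -/
theorem pf_Q1 (hRK : M_RK) (hMJ : M_MJ) (hDL : M_DL) (hMQ : D_MQ) (hDY : D_DY) (hQO : D_QO)
    (hRP : D_RP) (hCL : D_CL) (hDC : D_DC) (hEF : D_EF) (hCH : D_CH)
    (hDV : Pool.Agent.H29.TC.T_DV) : D_Q1 := by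
  classical
  intro n ε p hn hε hp
  obtain ⟨q, hq, hpq⟩ := hRK p hp
  obtain ⟨Φ, Ψ, C₀, hC₀, hΦ⟩ := hMJ
  obtain ⟨Ca, hCa, hMQ⟩ := hMQ n p q Φ Ψ C₀ hn hp hq hpq hC₀ hΦ
  obtain ⟨Cb, hCb, hDY⟩ := hDY n q Ψ hn hq hΦ.psi
  obtain ⟨Cl, hCl, hlog⟩ := Pool.Agent.H59.SM.K1.lg n hn (ε / 4) (by positivity)
  obtain ⟨Cd, hCd, hQO⟩ := hQO n (ε / 4) q Ψ hn (by positivity) hq hΦ.psi
  obtain ⟨Cv', hDV⟩ := hDV n (ε / 4) (by positivity)
  obtain ⟨C₇, -, hDL⟩ := hDL n hn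
  obtain ⟨Cc, hCc, hCL⟩ := hCL n hn
  obtain ⟨Cv, hCv'⟩ : ∃ Cv : ℝ, Cv = max 0 Cv' := ⟨_, rfl⟩
  have hCv : 0 ≤ Cv := by rw [hCv']; exact le_max_left _ _
  obtain ⟨C₁, hC₁⟩ : ∃ C₁ : ℝ, C₁ = Cc * 2 ^ n * 9 ^ n := ⟨_, rfl⟩
  have hC₁1 : 1 ≤ C₁ := by
    rw [hC₁]
    exact one_le_mul_of_one_le_of_one_le (one_le_mul_of_one_le_of_one_le hCc
      (one_le_pow₀ (by norm_num))) (one_le_pow₀ (by norm_num))
  have hC₁0 : 0 ≤ C₁ := by linarith
  have hCc0 : 0 ≤ Cc := by linarith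
  refine ⟨Ca * (C₁ * Cb + Cb * Cl * Cv * Cd * 9 ^ n * (Cc * C₁ + C₁)), by positivity, ?_⟩
  intro K _ _ hK l k κ θ M x₀ y ω ρ G τ ι J bl η γ c D hFP hω hρM hKq hFM hG hcls hlab hspc hD
  have hk : k ≠ ⊥ := hFP.lk.k_ne
  have hkκ : k ≤ κ := hKq.le_cub.trans (Ideal.pow_le_self (by norm_num))
  obtain ⟨b, κ₃, b₃, hCh, hκ0, hb0, hκ₃0, hb₃0, hnorms⟩ := hCH K k κ hk hkκ hKq.le_rad
  have hr0 : k.radical ≠ ⊥ := by
    intro h
    exact hk (le_bot_iff.mp (h ▸ Ideal.le_radical))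
  have hNk1 := one_le_Nf hk
  have hNr1 := one_le_Nf hr0
  have hNκ1 := one_le_Nf hκ0
  have hNl1 := one_le_Nf hFP.lk.l_ne
  have hG1 : ∀ v, 1 ≤ G v := fun v => (hG v).1
  have hG0 : ∀ v, 0 < G v := fun v => by linarith [hG1 v]
  have hPG1 : 1 ≤ PP G := one_le_PP hG1
  obtain ⟨P, hP⟩ : ∃ P : ℝ, P = Nf K κ * PP G := ⟨_, rfl⟩
  have hP1 : 1 ≤ P := by rw [hP]; exact one_le_mul_of_one_le_of_one_le hNκ1 hPG1
  have hP0 : 0 < P := by linarith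
  have hτ1 : ∀ v, 1 ≤ τ v := fun v => (one_le_pow₀ (hG1 v)).trans (hG v).2
  have hPτ1 : 1 ≤ PP τ := one_le_PP hτ1
  obtain ⟨T, hT⟩ : ∃ T : ℝ, T = Nf K k * PP τ := ⟨_, rfl⟩
  have hT1 : 1 ≤ T := by rw [hT]; exact one_le_mul_of_one_le_of_one_le hNk1 hPτ1
  have hT0 : 0 < T := by linarith
  have hkT : Nf K k ≤ T := by rw [hT]; exact le_mul_of_one_le_right (by linarith) hPτ1
  obtain ⟨r, hr⟩ : ∃ r : ℝ, r = Nf K k.radical := ⟨_, rfl⟩
  have hr1 : 1 ≤ r := by rw [hr]; exact hNr1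
  obtain ⟨δ, hδ⟩ : ∃ δ : ℝ, δ = DD M y / Nf K l := ⟨_, rfl⟩
  have hd1 : 1 ≤ dK K := by
    unfold dK
    have h : (1 : ℤ) ≤ |discr K| := Int.one_le_abs (discr_ne_zero K)
    have h2 : ((1 : ℤ) : ℝ) ≤ ((|discr K| : ℤ) : ℝ) := by exact_mod_cast h
    simpa using h2
  have hδ0 : 0 ≤ δ := by
    rw [hδ]
    unfold DD
    have : (0 : ℝ) ≤ (FractionalIdeal.absNorm M : ℝ) := by
      exact_mod_cast FractionalIdeal.absNorm_nonneg M
    have h2 : 0 < Nf K l := by linarith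
    positivity
  have hq0 : 0 ≤ δ / T := by positivity
  obtain ⟨R, hR⟩ : ∃ R : ℝ, R = ((J.image bl).card : ℝ) := ⟨_, rfl⟩
  have hR0 : 0 ≤ R := by rw [hR]; exact Nat.cast_nonneg _
  have hQB : QB k κ τ G R = R * P + R ^ (1 / 2 : ℝ) * (T / P ^ 2) := by
    unfold QB
    rw [PP_max (fun v => (hG v).2), ← hP, ← hT]
  rw [← hδ, ← hr, ← hT, ← hR]
  obtain ⟨I, ρ', hIJ, hρ', hspI⟩ := hRP n K hK ι J γ b c G hG0 (fun j hj v => (hcls j hj).real v)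
  obtain ⟨A, hA1, hA2, hA3⟩ := hDY K hK l k κ M y ω ρ G hFP.lk.l_ne hk hFP.lk.cop hFP.M_ne hω
    hkκ hKq.le_rad hG1 hρM
  rw [← hδ] at hA1 hA3
  have hmcJ : ∀ j ∈ J, MC (η j) := fun j hj => (hFM.lc j hj).mc
  have hEFb : ∀ i ∈ J, ∀ j ∈ J, (γ i - γ j ∈ b ↔ ∀ t ∈ κ, η i (Ideal.Quotient.mk k (1 + t)) =
      η j (Ideal.Quotient.mk k (1 + t))) := fun i hi j hj =>
    ((hEF K k hk hFP.lk.big).2 θ κ hFM.nd hkκ hKq.six_le).2.1 (η i) (η j) (γ i) (γ j) κ b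
      (hmcJ i hi) (hmcJ j hj) (hFM.fq i hi) (hFM.fq j hj) le_rfl hkκ hCh.b_eq
  have hA : (A.card : ℝ) ≤ Cb * (Cl * (T ^ (ε / 4) * (1 + δ / T) ^ (1 / 2 : ℝ))) :=
    hA1.trans (mul_le_mul_of_nonneg_left (hlog T δ hT1 hδ0) hCb)
  -- the mean square
  have hsum : ∑ j ∈ J, ‖SQ p (((l * k.radical : Ideal (𝓞 K)) : FI K) * M) y ω ρ
      (cq k (η j) M x₀) (c j)‖ ^ 2 ≤
      ∑ i ∈ I, Ca * (D * P * ‖MP q Ψ (((l * k.radical : Ideal (𝓞 K)) : FI K) * M)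
        ((κ : FI K) * M) y ω ρ (cq k (η i) M x₀) G (c i)‖) := by
    rw [← Finset.sum_fiberwise_of_maps_to (fun j hj => (hρ' j hj).1)]
    refine Finset.sum_le_sum fun i hi => ?_
    rw [hP]
    refine hMQ K hK l k κ M x₀ y ω ρ ι (J.filter fun j => ρ' j = i) η (η i) c (c i) G D hFP hω
      hkκ hKq.le_rad hG1 hρM (hmcJ i (hIJ hi)) (fun j hj => ?_)
      (fun v => (hcls i (hIJ hi)).real v) (fun j hj v => ?_) (fun η₀ c₀ => ?_)
    · rw [Finset.mem_filter] at hj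
      refine ⟨hmcJ j hj.1, ?_⟩
      have h1 := (hρ' j hj.1).2.1
      rw [hj.2] at h1
      exact (hEFb j hj.1 i (hIJ hi)).mp h1
    · rw [Finset.mem_filter] at hj
      refine ⟨(hcls j hj.1).real v, ?_⟩
      have := (hρ' j hj.1).2.2 v
      rw [hj.2] at this
      exact this
    · refine le_trans ?_ (hspc η₀ c₀)
      exact_mod_cast Finset.card_le_card (Finset.filter_subset_filter _
        (Finset.filter_subset _ _))
  -- the number of the representatives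
  have hIR : (I.card : ℝ) ≤ C₁ * R := by
    have h1 : (I.card : ℝ) = ∑ m ∈ I.image bl, ((I.filter fun j => bl j = m).card : ℝ) := by
      rw [Finset.card_eq_sum_card_image bl I]
      push_cast
      rfl
    have h2 : ∀ m ∈ I.image bl, ((I.filter fun j => bl j = m).card : ℝ) ≤ C₁ := by
      intro m _
      rw [hC₁]
      refine card_label hK hCc0 (fun ι J γ b c τ H => hCL K hK ι J γ b c τ H) I γ b c G (9 ^ n)
        (by positivity) hG0 (fun j hj v => (hcls j (hIJ hj)).real v) hspI _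
        (Finset.filter_subset _ _) (fun i hi j hj => ?_)
      rw [Finset.mem_filter] at hi hj
      have h3 := hlab i (hIJ hi.1) j (hIJ hj.1) (hi.2.trans hj.2.symm)
      exact ⟨(hEFb i (hIJ hi.1) j (hIJ hj.1)).mpr h3.1, h3.2⟩
    have h3 : ((I.image bl).card : ℝ) ≤ R := by
      rw [hR]
      exact_mod_cast Finset.card_le_card (Finset.image_subset_image hIJ)
    rw [h1]
    refine (Finset.sum_le_sum h2).trans ?_
    rw [Finset.sum_const, nsmul_eq_mul, mul_comm]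
    exact mul_le_mul_of_nonneg_left h3 hC₁0
  -- the cells
  obtain ⟨cl', hcell1, hcell2⟩ := hCL K hK ι I γ b₃ c τ (fun v => G v ^ 3) hb₃0
    (fun v => ⟨pow_pos (hG0 v) 3, (hG v).2⟩)
    (fun j hj v => ⟨(hcls j (hIJ hj)).real v, by
      have h1 := (hcls j (hIJ hj)).upp v
      linarith⟩)
  have hcells : ((I.image cl').card : ℝ) ≤ Cc * (T / P ^ 3) := by
    refine hcell1.trans (le_of_eq ?_)
    obtain ⟨-, -, -, h1, -⟩ := hnorms κ b hCh.b_eq le_rfl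
    have h2 : Nf K κ₃ = Nf K κ ^ 3 := by
      rw [hCh.κ₃_eq, sup_eq_left.mpr hKq.le_cub]
      unfold Nf
      rw [map_pow]
      push_cast
      rfl
    rw [h2] at h1
    rw [PP_cub, hT, hP, h1]
    have h3 : PP G ≠ 0 := by linarith
    have h4 : Nf K κ ≠ 0 := by linarith
    field_simp
  obtain ⟨W, hW⟩ : ∃ W : ℝ, W = T ^ (1 / 2 : ℝ) * P ^ (-(3 / 2) : ℝ) := ⟨_, rfl⟩
  have hW0 : 0 ≤ W := by rw [hW]; positivity
  have hLk : (((l * κ : Ideal (𝓞 K)) : FI K) * M) ≠ 0 := by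
    refine mul_ne_zero ?_ hFP.M_ne
    rw [FractionalIdeal.coeIdeal_ne_zero]
    exact mul_ne_zero hFP.lk.l_ne hκ0
  have hcell : ∀ I' : Finset ι, I' ⊆ I →
      (∀ i ∈ I', ∀ j ∈ I', γ i - γ j ∈ b₃ ∧ ∀ v, ‖c i v - c j v‖ ≤ 2 * G v ^ 3) →
      ∀ α ∈ A, ∑ i ∈ I', ‖OQ q Ψ (Dl (((l * κ : Ideal (𝓞 K)) : FI K) * M) y ω α)
      (((l * k.radical : Ideal (𝓞 K)) : FI K) * M) y ω ρ (cq k (η i) M x₀) G (c i)‖ ≤
      (Cv * T ^ (ε / 4) * r) * (Cd * (δ * (9 ^ n * dK K ^ 2 * r ^ 2 * T ^ (ε / 4) *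
        ((I'.card : ℝ) ^ (1 / 2 : ℝ) * W + I'.card * (1 + δ / T))))) := by
    intro I' hI' hblk α hα
    have hI'J : I' ⊆ J := hI'.trans hIJ
    have hFMI : FM k κ θ I' η γ := ⟨hFM.nd, fun j hj => hFM.lc j (hI'J hj),
      fun j hj => hFM.fq j (hI'J hj)⟩
    obtain ⟨N, cl, hN, hcl, hcls2⟩ := hDC K l k κ θ M x₀ ρ ι I' η γ hFP hkκ hKq.le_rad
      hKq.six_le hFMI hρM
    have hNr : (N : ℝ) ≤ Cv * T ^ (ε / 4) * r := by
      rw [← hr] at hN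
      refine hN.trans (mul_le_mul_of_nonneg_right ?_ (by linarith))
      refine (hDV K hK k hk).trans ?_
      have h1 : Cv' ≤ Cv := by rw [hCv']; exact le_max_right _ _
      have h2 : Nf K k ^ (ε / 4) ≤ T ^ (ε / 4) :=
        Real.rpow_le_rpow (by linarith) hkT (by positivity)
      have h3 : 0 ≤ Nf K k ^ (ε / 4) := by
        have : 0 ≤ Nf K k := by linarith
        positivity
      calc Cv' * Nf K k ^ (ε / 4) ≤ Cv * Nf K k ^ (ε / 4) := mul_le_mul_of_nonneg_right h1 h3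
        _ ≤ Cv * T ^ (ε / 4) := mul_le_mul_of_nonneg_left h2 hCv
    have hα0 : ∀ v, 0 < α v := fun v => (hA2 α hα v).1
    obtain ⟨hfin, -, -⟩ := hDL K hK (((l * κ : Ideal (𝓞 K)) : FI K) * M) y ω α hLk hω hα0
    have hspI' : SpG I' b γ c G (9 ^ n) := by
      intro γ₀ c₀
      refine le_trans ?_ (hspI γ₀ c₀)
      exact_mod_cast Finset.card_le_card (Finset.filter_subset_filter _ hI')
    have h1 : ∀ t ∈ Finset.range N, ∑ i ∈ I', ‖OQ q Ψ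
        {δ | δ ∈ Dl (((l * κ : Ideal (𝓞 K)) : FI K) * M) y ω α ∧ cl δ = t}
        (((l * k.radical : Ideal (𝓞 K)) : FI K) * M) y ω ρ (cq k (η i) M x₀) G (c i)‖ ≤
        Cd * (δ * (9 ^ n * dK K ^ 2 * r ^ 2 * T ^ (ε / 4) *
          ((I'.card : ℝ) ^ (1 / 2 : ℝ) * W + I'.card * (1 + δ / T)))) := by
      intro t ht
      obtain ⟨e, k', E, heκ, he, hk', hFT, hCO⟩ := hcls2 t (Finset.mem_range.mp ht)
      have hsub : {δ | δ ∈ Dl (((l * κ : Ideal (𝓞 K)) : FI K) * M) y ω α ∧ cl δ = t} ⊆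
          {δ | δ ≠ 0 ∧ 2 * δ ∈ (((l * κ : Ideal (𝓞 K)) : FI K) * M) ∧ cl δ = t} := by
        rintro x ⟨⟨hx1, hx2⟩, hx3⟩
        refine ⟨?_, hx1, hx3⟩
        rintro rfl
        obtain ⟨v₀⟩ : Nonempty (InfinitePlace K) := inferInstance
        have h2 := (hx2 v₀).1
        unfold wv at h2
        rw [map_zero, zero_mul, zero_mul, norm_zero] at h2
        linarith [hα0 v₀]
      have h3 := hQO K hK l k κ b κ₃ b₃ e k' M y ω ρ G α τ
        {δ | δ ∈ Dl (((l * κ : Ideal (𝓞 K)) : FI K) * M) y ω α ∧ cl δ = t} ι I' γ c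
        (fun j => cq k (η j) M x₀) E (9 ^ n) hFP.lk.l_ne hFP.ev hk hFP.M_ne hω hρM hCh heκ
        (FT_mono hFT hsub) hCO (fun x hx v => hx.1.2 v)
        (fun v => ⟨hG1 v, (hA2 α hα v).1, (hA2 α hα v).2.1, (hA2 α hα v).2.2, (hG v).2⟩)
        (fun i hi => hcls i (hI'J hi)) hblk hspI' (one_le_pow₀ (by norm_num))
      rw [← hδ, ← hr, ← hT, ← hP, ← hW] at h3
      exact h3
    calc ∑ i ∈ I', ‖OQ q Ψ (Dl (((l * κ : Ideal (𝓞 K)) : FI K) * M) y ω α)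
            (((l * k.radical : Ideal (𝓞 K)) : FI K) * M) y ω ρ (cq k (η i) M x₀) G (c i)‖ ≤
        ∑ i ∈ I', ∑ t ∈ Finset.range N, ‖OQ q Ψ
          {δ | δ ∈ Dl (((l * κ : Ideal (𝓞 K)) : FI K) * M) y ω α ∧ cl δ = t}
          (((l * k.radical : Ideal (𝓞 K)) : FI K) * M) y ω ρ (cq k (η i) M x₀) G (c i)‖ :=
          Finset.sum_le_sum fun i _ => OQ_split q Ψ _ hfin _ y ω ρ _ G (c i) N cl hcl
      _ = ∑ t ∈ Finset.range N, ∑ i ∈ I', ‖OQ q Ψ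
          {δ | δ ∈ Dl (((l * κ : Ideal (𝓞 K)) : FI K) * M) y ω α ∧ cl δ = t}
          (((l * k.radical : Ideal (𝓞 K)) : FI K) * M) y ω ρ (cq k (η i) M x₀) G (c i)‖ :=
          Finset.sum_comm
      _ ≤ (N : ℝ) * (Cd * (δ * (9 ^ n * dK K ^ 2 * r ^ 2 * T ^ (ε / 4) *
          ((I'.card : ℝ) ^ (1 / 2 : ℝ) * W + I'.card * (1 + δ / T))))) := by
          refine (Finset.sum_le_sum h1).trans ?_
          rw [Finset.sum_const, nsmul_eq_mul, Finset.card_range]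
      _ ≤ _ := mul_le_mul_of_nonneg_right hNr (by positivity)
  -- the sum over the cells
  have hOD : ∀ α ∈ A, ∑ i ∈ I, ‖OQ q Ψ (Dl (((l * κ : Ideal (𝓞 K)) : FI K) * M) y ω α)
      (((l * k.radical : Ideal (𝓞 K)) : FI K) * M) y ω ρ (cq k (η i) M x₀) G (c i)‖ ≤
      (Cv * T ^ (ε / 4) * r) * (Cd * (δ * (9 ^ n * dK K ^ 2 * r ^ 2 * T ^ (ε / 4) *
        (Cc * C₁ * (R ^ (1 / 2 : ℝ) * (T / P ^ 3)) + C₁ * R * (1 + δ / T))))) := by
    intro α hα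
    have h1 : ∑ i ∈ I, ‖OQ q Ψ (Dl (((l * κ : Ideal (𝓞 K)) : FI K) * M) y ω α)
        (((l * k.radical : Ideal (𝓞 K)) : FI K) * M) y ω ρ (cq k (η i) M x₀) G (c i)‖ ≤
        ∑ m ∈ I.image cl', (Cv * T ^ (ε / 4) * r) * (Cd * (δ * (9 ^ n * dK K ^ 2 * r ^ 2 *
          T ^ (ε / 4) * (((I.filter fun j => cl' j = m).card : ℝ) ^ (1 / 2 : ℝ) * W +
            (I.filter fun j => cl' j = m).card * (1 + δ / T))))) := by
      rw [← Finset.sum_fiberwise_of_maps_to (t := I.image cl') (g := cl')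
        (fun i hi => Finset.mem_image_of_mem cl' hi)]
      refine Finset.sum_le_sum fun m _ => ?_
      refine hcell _ (Finset.filter_subset _ _) (fun i hi j hj => ?_) α hα
      rw [Finset.mem_filter] at hi hj
      exact hcell2 i hi.1 j hj.1 (hi.2.trans hj.2.symm)
    refine h1.trans ?_
    have h2 : ∑ m ∈ I.image cl', (Cv * T ^ (ε / 4) * r) * (Cd * (δ * (9 ^ n * dK K ^ 2 * r ^ 2 *
          T ^ (ε / 4) * (((I.filter fun j => cl' j = m).card : ℝ) ^ (1 / 2 : ℝ) * W +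
            (I.filter fun j => cl' j = m).card * (1 + δ / T))))) =
        (Cv * T ^ (ε / 4) * r) * (Cd * (δ * (9 ^ n * dK K ^ 2 * r ^ 2 * T ^ (ε / 4) *
          ((∑ m ∈ I.image cl', ((I.filter fun j => cl' j = m).card : ℝ) ^ (1 / 2 : ℝ)) * W +
            (I.card : ℝ) * (1 + δ / T))))) := by
      have h3 : (I.card : ℝ) = ∑ m ∈ I.image cl', ((I.filter fun j => cl' j = m).card : ℝ) := by
        rw [Finset.card_eq_sum_card_image cl' I]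
        push_cast
        rfl
      rw [h3]
      simp only [← Finset.mul_sum, Finset.sum_mul, ← Finset.sum_add_distrib]
    rw [h2]
    have h3 : (∑ m ∈ I.image cl', ((I.filter fun j => cl' j = m).card : ℝ) ^ (1 / 2 : ℝ)) * W ≤
        Cc * C₁ * (R ^ (1 / 2 : ℝ) * (T / P ^ 3)) := by
      refine (mul_le_mul_of_nonneg_right (sum_root I cl') hW0).trans ?_
      rw [hW]
      exact cells_num (Nat.cast_nonneg _) (Nat.cast_nonneg _) hR0 hT0.le hP0 hCc hC₁1 hcells hIR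
    gcongr
  have hMM : ∑ i ∈ I, ‖MP q Ψ (((l * k.radical : Ideal (𝓞 K)) : FI K) * M)
        ((κ : FI K) * M) y ω ρ (cq k (η i) M x₀) G (c i)‖ ≤ (I.card : ℝ) * (Cb * (1 + δ)) +
      (A.card : ℝ) * ((Cv * T ^ (ε / 4) * r) * (Cd * (δ * (9 ^ n * dK K ^ 2 * r ^ 2 *
        T ^ (ε / 4) * (Cc * C₁ * (R ^ (1 / 2 : ℝ) * (T / P ^ 3)) +
          C₁ * R * (1 + δ / T)))))) := by
    calc ∑ i ∈ I, ‖MP q Ψ (((l * k.radical : Ideal (𝓞 K)) : FI K) * M)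
            ((κ : FI K) * M) y ω ρ (cq k (η i) M x₀) G (c i)‖ ≤
        ∑ i ∈ I, (Cb * (1 + δ) + ∑ α ∈ A,
          ‖OQ q Ψ (Dl (((l * κ : Ideal (𝓞 K)) : FI K) * M) y ω α)
            (((l * k.radical : Ideal (𝓞 K)) : FI K) * M) y ω ρ (cq k (η i) M x₀) G (c i)‖) :=
          Finset.sum_le_sum fun i hi => hA3 (cq k (η i) M x₀) (c i)
            (fun x _ => norm_cq_le (hmcJ i (hIJ hi)) M x₀ x)
      _ = (I.card : ℝ) * (Cb * (1 + δ)) + ∑ α ∈ A, ∑ i ∈ I,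
          ‖OQ q Ψ (Dl (((l * κ : Ideal (𝓞 K)) : FI K) * M) y ω α)
            (((l * k.radical : Ideal (𝓞 K)) : FI K) * M) y ω ρ (cq k (η i) M x₀) G (c i)‖ := by
          rw [Finset.sum_add_distrib, Finset.sum_const, nsmul_eq_mul, Finset.sum_comm]
      _ ≤ _ := by
          refine add_le_add le_rfl ?_
          refine (Finset.sum_le_sum hOD).trans ?_
          rw [Finset.sum_const, nsmul_eq_mul]
  have hmain : ∑ j ∈ J, ‖SQ p (((l * k.radical : Ideal (𝓞 K)) : FI K) * M) y ω ρ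
      (cq k (η j) M x₀) (c j)‖ ^ 2 ≤
      Ca * (D * P * ((I.card : ℝ) * (Cb * (1 + δ)) +
      (A.card : ℝ) * ((Cv * T ^ (ε / 4) * r) * (Cd * (δ * (9 ^ n * dK K ^ 2 * r ^ 2 *
        T ^ (ε / 4) * (Cc * C₁ * (R ^ (1 / 2 : ℝ) * (T / P ^ 3)) +
          C₁ * R * (1 + δ / T)))))))) := by
    calc ∑ j ∈ J, ‖SQ p (((l * k.radical : Ideal (𝓞 K)) : FI K) * M) y ω ρ
          (cq k (η j) M x₀) (c j)‖ ^ 2 ≤ _ := hsum
      _ = Ca * (D * P * ∑ i ∈ I, ‖MP q Ψ (((l * k.radical : Ideal (𝓞 K)) : FI K) * M)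
            ((κ : FI K) * M) y ω ρ (cq k (η i) M x₀) G (c i)‖) := by
          rw [Finset.mul_sum, Finset.mul_sum]
      _ ≤ _ := by gcongr
  exact coll hCa hCb hCl hCv hCd hC₁0 (by positivity) (by positivity) hD hP1 hδ0 hd1 hr1 hT1 hε
    hR0 hA hIR hQB hmain

end Pool.Agent.H19.DMQ.Q1
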