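import Pool.Agent.H23.DM.TargetsQ
import Pool.Agent.H19.DM.BL

/-!
# The mean square over families of boxes and cosets: tools for row Q1
-/

set_option autoImplicit false

open NumberField NumberField.InfinitePlace MeasureTheory

namespace Pool.Agent.H19.DMQ.Q1

open Pool.Agent.H25.HK Pool.Agent.H23.LB Pool.Agent.H23.LC Pool.Agent.H23.DM
open Pool.Agent.H27.TM (Cls)
open Pool.Agent.H29.DW (Rl rv)
open Pool.Agent.H31.SW (PP)

variable {K : Type} [Field K] [NumberField K]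

theorem PP_half {n : ℕ} (hn : Module.finrank ℚ K = n) (G : InfinitePlace K → ℝ) :
    PP (fun v => G v / 2) = PP G / 2 ^ n := by
  unfold PP
  simp only [div_pow]
  rw [Finset.prod_div_distrib, Finset.prod_pow_eq_pow_sum, sum_mult_eq, hn]

theorem PP_cub (G : InfinitePlace K → ℝ) :
    PP (fun v => G v ^ 3) = PP G ^ 3 := by
  unfold PP
  rw [← Finset.prod_pow]
  refine Finset.prod_congr rfl fun v _ => ?_
  rw [← pow_mul, ← pow_mul, mul_comm]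

theorem PP_max {G τ : InfinitePlace K → ℝ} (h : ∀ v, G v ^ 3 ≤ τ v) :
    PP (fun v => max (τ v) (G v ^ 3)) = PP τ := by
  unfold PP
  refine Finset.prod_congr rfl fun v _ => ?_
  simp only [max_eq_left (h v)]

theorem PP_pos {G : InfinitePlace K → ℝ} (h : ∀ v, 0 < G v) : 0 < PP G := by
  unfold PP
  exact Finset.prod_pos fun v _ => pow_pos (h v) _

/-- the number of the representatives with the same label -/
theorem card_label {n : ℕ} (hn : Module.finrank ℚ K = n) {Cc : ℝ} (hCc : 0 ≤ Cc)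
    (hCL : ∀ (ι : Type) (J : Finset ι) (γ : ι → 𝓞 K) (b : Ideal (𝓞 K))
      (c : ι → InfinitePlace K → ℂ) (τ H : InfinitePlace K → ℝ), b ≠ ⊥ →
      (∀ v, 0 < H v ∧ H v ≤ τ v) → (∀ j ∈ J, ∀ v, Rl (rv v) (c j v) ∧ ‖c j v‖ ≤ 2 * τ v) →
      ∃ bl : ι → ℕ, ((J.image bl).card : ℝ) ≤ Cc * (Nf K b * (PP τ / PP H)) ∧
        ∀ i ∈ J, ∀ j ∈ J, bl i = bl j → γ i - γ j ∈ b ∧ ∀ v, ‖c i v - c j v‖ ≤ 2 * H v)
    {ι : Type} (I : Finset ι) (γ : ι → 𝓞 K) (b : Ideal (𝓞 K)) (c : ι → InfinitePlace K → ℂ)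
    (G : InfinitePlace K → ℝ) (D : ℝ) (hD : 0 ≤ D) (hG : ∀ v, 0 < G v)
    (hR : ∀ j ∈ I, ∀ v, Rl (rv v) (c j v)) (hsp : SpG I b γ c G D) (I' : Finset ι)
    (hI' : I' ⊆ I) (hclo : ∀ i ∈ I', ∀ j ∈ I', γ i - γ j ∈ b ∧ ∀ v, ‖c i v - c j v‖ ≤ 2 * G v) :
    (I'.card : ℝ) ≤ Cc * 2 ^ n * D := by
  classical
  rcases I'.eq_empty_or_nonempty with rfl | ⟨i0, hi0⟩
  · rw [Finset.card_empty, Nat.cast_zero]
    positivity
  · obtain ⟨bl, h1, h2⟩ := hCL ι I' γ ⊤ (fun j v => c j v - c i0 v) G (fun v => G v / 2)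
      (by simp) (fun v => ⟨by linarith [hG v], by linarith [hG v]⟩)
      (fun j hj v => ⟨fun hv => by
        have e1 := hR j (hI' hj) v hv
        have e2 := hR i0 (hI' hi0) v hv
        rw [Complex.sub_im, e1, e2, sub_zero], (hclo j hj i0 hi0).2 v⟩)
    have hPG := PP_pos hG
    have h3 : ((I'.image bl).card : ℝ) ≤ Cc * 2 ^ n := by
      refine h1.trans (le_of_eq ?_)
      have h4 : Nf K (⊤ : Ideal (𝓞 K)) = 1 := by
        unfold Nf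
        rw [← Ideal.one_eq_top, map_one, Nat.cast_one]
      rw [h4, PP_half hn]
      field_simp
    have h4 : (I'.card : ℝ) = ∑ m ∈ I'.image bl, ((I'.filter fun j => bl j = m).card : ℝ) := by
      rw [Finset.card_eq_sum_card_image bl I']
      push_cast
      rfl
    have h5 : ∀ m ∈ I'.image bl, ((I'.filter fun j => bl j = m).card : ℝ) ≤ D := by
      intro m hm
      obtain ⟨i, hi, rfl⟩ := Finset.mem_image.mp hm
      refine le_trans ?_ (hsp (γ i) (c i))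
      have h6 : (I'.filter fun j => bl j = bl i) ⊆
          I.filter fun j => γ j - γ i ∈ b ∧ ∀ v, ‖c j v - c i v‖ ≤ G v := by
        intro j hj
        rw [Finset.mem_filter] at hj ⊢
        refine ⟨hI' hj.1, (hclo j hj.1 i hi).1, fun v => ?_⟩
        have h7 := (h2 j hj.1 i hi hj.2).2 v
        have h8 : c j v - c i0 v - (c i v - c i0 v) = c j v - c i v := by ring
        rw [h8] at h7
        linarith
      exact_mod_cast Finset.card_le_card h6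
    rw [h4]
    refine (Finset.sum_le_sum h5).trans ?_
    rw [Finset.sum_const, nsmul_eq_mul]
    exact mul_le_mul_of_nonneg_right h3 hD

/-- the sum of the square roots of the numbers of elements of the cells -/
theorem sum_root {ι : Type} [DecidableEq ι] (I : Finset ι) (cl : ι → ℕ) :
    ∑ m ∈ I.image cl, ((I.filter fun j => cl j = m).card : ℝ) ^ (1 / 2 : ℝ) ≤
      ((I.image cl).card : ℝ) ^ (1 / 2 : ℝ) * (I.card : ℝ) ^ (1 / 2 : ℝ) := by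
  have h1 := Real.sum_sqrt_mul_sqrt_le (I.image cl) (f := fun _ => (1 : ℝ))
    (g := fun m => ((I.filter fun j => cl j = m).card : ℝ)) (fun _ => zero_le_one)
    (fun _ => Nat.cast_nonneg _)
  have h2 : ∑ m ∈ I.image cl, ((I.filter fun j => cl j = m).card : ℝ) = (I.card : ℝ) := by
    rw [Finset.card_eq_sum_card_image cl I]
    push_cast
    rfl
  rw [h2] at h1
  simp only [Real.sqrt_one, one_mul, Finset.sum_const, nsmul_eq_mul, mul_one] at h1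
  simp only [← Real.sqrt_eq_rpow]
  exact h1

/-- the number of the cells -/
theorem cells_num {N I R T P Cc C₁ : ℝ} (hN0 : 0 ≤ N) (hI0 : 0 ≤ I) (hR : 0 ≤ R) (hT : 0 ≤ T)
    (hP : 0 < P) (hCc : 1 ≤ Cc) (hC₁ : 1 ≤ C₁) (hN : N ≤ Cc * (T / P ^ 3)) (hI : I ≤ C₁ * R) :
    N ^ (1 / 2 : ℝ) * I ^ (1 / 2 : ℝ) * (T ^ (1 / 2 : ℝ) * P ^ (-(3 / 2) : ℝ)) ≤
      Cc * C₁ * (R ^ (1 / 2 : ℝ) * (T / P ^ 3)) := by
  obtain ⟨s, hs⟩ : ∃ s : ℝ, s = T ^ (1 / 2 : ℝ) * P ^ (-(3 / 2) : ℝ) := ⟨_, rfl⟩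
  have hs0 : 0 ≤ s := by rw [hs]; positivity
  have hs2 : s * s = T / P ^ 3 := by
    rw [hs]
    have e1 : T ^ (1 / 2 : ℝ) * T ^ (1 / 2 : ℝ) = T := by
      rw [← Real.rpow_add_of_nonneg hT (by norm_num) (by norm_num)]
      norm_num
    have e2 : P ^ (-(3 / 2) : ℝ) * P ^ (-(3 / 2) : ℝ) = (P ^ 3)⁻¹ := by
      rw [← Real.rpow_add hP, ← Real.rpow_natCast P 3, ← Real.rpow_neg hP.le]
      norm_num
    calc T ^ (1 / 2 : ℝ) * P ^ (-(3 / 2) : ℝ) * (T ^ (1 / 2 : ℝ) * P ^ (-(3 / 2) : ℝ)) =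
        (T ^ (1 / 2 : ℝ) * T ^ (1 / 2 : ℝ)) * (P ^ (-(3 / 2) : ℝ) * P ^ (-(3 / 2) : ℝ)) := by
          ring
      _ = T / P ^ 3 := by rw [e1, e2]; rfl
  have hroot : ∀ C x : ℝ, 1 ≤ C → 0 ≤ x → (C * x) ^ (1 / 2 : ℝ) ≤ C * x ^ (1 / 2 : ℝ) := by
    intro C x hC hx
    rw [Real.mul_rpow (by linarith) hx]
    refine mul_le_mul_of_nonneg_right ?_ (by positivity)
    calc C ^ (1 / 2 : ℝ) ≤ C ^ (1 : ℝ) := Real.rpow_le_rpow_of_exponent_le hC (by norm_num)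
      _ = C := Real.rpow_one C
  have h1 : N ^ (1 / 2 : ℝ) ≤ Cc * s := by
    have h3 : (T / P ^ 3) ^ (1 / 2 : ℝ) = s := by
      rw [← hs2, Real.mul_rpow hs0 hs0, ← Real.rpow_add_of_nonneg hs0 (by norm_num) (by norm_num)]
      norm_num
    calc N ^ (1 / 2 : ℝ) ≤ (Cc * (T / P ^ 3)) ^ (1 / 2 : ℝ) :=
          Real.rpow_le_rpow hN0 hN (by norm_num)
      _ ≤ Cc * (T / P ^ 3) ^ (1 / 2 : ℝ) := hroot _ _ hCc (by positivity)
      _ = Cc * s := by rw [h3]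
  have h2 : I ^ (1 / 2 : ℝ) ≤ C₁ * R ^ (1 / 2 : ℝ) :=
    (Real.rpow_le_rpow hI0 hI (by norm_num)).trans (hroot _ _ hC₁ hR)
  rw [← hs]
  calc N ^ (1 / 2 : ℝ) * I ^ (1 / 2 : ℝ) * s ≤ (Cc * s) * (C₁ * R ^ (1 / 2 : ℝ)) * s := by
        have hR0 : 0 ≤ R ^ (1 / 2 : ℝ) := by positivity
        gcongr
    _ = Cc * C₁ * (R ^ (1 / 2 : ℝ) * (s * s)) := by ring
    _ = _ := by rw [hs2]

/-- the collection of the terms -/
theorem coll {Ca Cb Cl Cv Cd C₁ C₂ nn D P δ d r T ε A I R S B : ℝ} (hCa : 0 ≤ Ca) (hCb : 0 ≤ Cb)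
    (hCl : 0 ≤ Cl) (hCv : 0 ≤ Cv) (hCd : 0 ≤ Cd) (hC₁ : 0 ≤ C₁) (hC₂ : 0 ≤ C₂) (hnn : 0 ≤ nn)
    (hD : 1 ≤ D) (hP : 1 ≤ P) (hδ : 0 ≤ δ) (hd : 1 ≤ d) (hr : 1 ≤ r) (hT : 1 ≤ T) (hε : 0 < ε)
    (hR : 0 ≤ R)
    (hA : A ≤ Cb * (Cl * (T ^ (ε / 4) * (1 + δ / T) ^ (1 / 2 : ℝ))))
    (hI : I ≤ C₁ * R) (hB : B = R * P + R ^ (1 / 2 : ℝ) * (T / P ^ 2))
    (h : S ≤ Ca * (D * P * (I * (Cb * (1 + δ)) + A * ((Cv * T ^ (ε / 4) * r) * (Cd * (δ *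
      (nn * d ^ 2 * r ^ 2 * T ^ (ε / 4) * (C₂ * (R ^ (1 / 2 : ℝ) * (T / P ^ 3)) +
        C₁ * R * (1 + δ / T))))))))) :
    S ≤ Ca * (C₁ * Cb + Cb * Cl * Cv * Cd * nn * (C₂ + C₁)) *
      (D * d ^ 2 * r ^ 3 * T ^ ε * B * ((1 + δ) * (1 + δ / T) ^ (3 / 2 : ℝ))) := by
  have hT0 : 0 < T := by linarith
  have hq : 0 ≤ δ / T := by positivity
  obtain ⟨z, hz⟩ : ∃ z : ℝ, z = 1 + δ / T := ⟨_, rfl⟩
  have hz1 : 1 ≤ z := by rw [hz]; linarith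
  have hz0 : 0 < z := by linarith
  rw [← hz] at hA h ⊢
  obtain ⟨x, hx⟩ : ∃ x : ℝ, x = T ^ (ε / 4) := ⟨_, rfl⟩
  rw [← hx] at hA h
  have hx1 : 1 ≤ x := by rw [hx]; exact Real.one_le_rpow hT (by positivity)
  have e1 : z ^ (1 / 2 : ℝ) * z = z ^ (3 / 2 : ℝ) := by
    nth_rewrite 2 [← Real.rpow_one z]
    rw [← Real.rpow_add hz0]
    norm_num
  have e2 : x * x * x ≤ T ^ ε := by
    rw [hx, ← Real.rpow_add hT0, ← Real.rpow_add hT0]
    exact Real.rpow_le_rpow_of_exponent_le hT (by linarith)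
  have hP0 : 0 < P := by linarith
  have hd0 : 0 < d := by linarith
  have hr0 : 0 < r := by linarith
  have hD0 : 0 < D := by linarith
  have hR2 : 0 ≤ R ^ (1 / 2 : ℝ) := by positivity
  have hB0 : 0 ≤ B := by rw [hB]; positivity
  have hB1 : R * P ≤ B := by
    rw [hB]
    have : 0 ≤ R ^ (1 / 2 : ℝ) * (T / P ^ 2) := by positivity
    linarith
  have hB2 : R ^ (1 / 2 : ℝ) * (T / P ^ 2) ≤ B := by
    rw [hB]
    have : 0 ≤ R * P := by positivity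
    linarith
  have hz3 : 1 ≤ z ^ (3 / 2 : ℝ) := Real.one_le_rpow hz1 (by norm_num)
  have hTe : 1 ≤ T ^ ε := Real.one_le_rpow hT hε.le
  obtain ⟨w, hw⟩ : ∃ w : ℝ, w = d ^ 2 * r ^ 3 * T ^ ε * ((1 + δ) * z ^ (3 / 2 : ℝ)) := ⟨_, rfl⟩
  -- the first term
  have k1 : P * (I * (Cb * (1 + δ))) ≤ C₁ * Cb * (B * w) := by
    have hbig : 1 + δ ≤ w := by
      have h1 : 1 ≤ d ^ 2 * r ^ 3 * T ^ ε * z ^ (3 / 2 : ℝ) :=
        one_le_mul_of_one_le_of_one_le (one_le_mul_of_one_le_of_one_le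
          (one_le_mul_of_one_le_of_one_le (one_le_pow₀ hd) (one_le_pow₀ hr)) hTe) hz3
      have h2 : w = (1 + δ) * (d ^ 2 * r ^ 3 * T ^ ε * z ^ (3 / 2 : ℝ)) := by rw [hw]; ring
      rw [h2]
      exact le_mul_of_one_le_right (by linarith) h1
    calc P * (I * (Cb * (1 + δ))) ≤ P * ((C₁ * R) * (Cb * (1 + δ))) := by gcongr
      _ = C₁ * Cb * ((R * P) * (1 + δ)) := by ring
      _ ≤ C₁ * Cb * (B * w) := by gcongr
  -- the second term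
  have k2 : P * (C₂ * (R ^ (1 / 2 : ℝ) * (T / P ^ 3)) + C₁ * R * z) ≤ (C₂ + C₁) * (B * z) := by
    have h1 : P * (R ^ (1 / 2 : ℝ) * (T / P ^ 3)) = R ^ (1 / 2 : ℝ) * (T / P ^ 2) := by
      field_simp
    calc P * (C₂ * (R ^ (1 / 2 : ℝ) * (T / P ^ 3)) + C₁ * R * z) =
        C₂ * (P * (R ^ (1 / 2 : ℝ) * (T / P ^ 3))) + C₁ * ((R * P) * z) := by ring
      _ ≤ C₂ * (B * z) + C₁ * (B * z) := by
          rw [h1]
          have h2 : R ^ (1 / 2 : ℝ) * (T / P ^ 2) ≤ B * z :=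
            hB2.trans (le_mul_of_one_le_right hB0 hz1)
          gcongr
      _ = _ := by ring
  have k3 : P * (A * ((Cv * x * r) * (Cd * (δ *
      (nn * d ^ 2 * r ^ 2 * x * (C₂ * (R ^ (1 / 2 : ℝ) * (T / P ^ 3)) + C₁ * R * z)))))) ≤
      Cb * Cl * Cv * Cd * nn * (C₂ + C₁) * (B * w) := by
    have hin : 0 ≤ C₂ * (R ^ (1 / 2 : ℝ) * (T / P ^ 3)) + C₁ * R * z := by positivity
    calc P * (A * ((Cv * x * r) * (Cd * (δ *
        (nn * d ^ 2 * r ^ 2 * x * (C₂ * (R ^ (1 / 2 : ℝ) * (T / P ^ 3)) + C₁ * R * z)))))) =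
        A * (Cv * x * r * Cd * δ * nn * d ^ 2 * r ^ 2 * x) *
          (P * (C₂ * (R ^ (1 / 2 : ℝ) * (T / P ^ 3)) + C₁ * R * z)) := by ring
      _ ≤ (Cb * (Cl * (x * z ^ (1 / 2 : ℝ)))) * (Cv * x * r * Cd * (1 + δ) * nn * d ^ 2 *
          r ^ 2 * x) * ((C₂ + C₁) * (B * z)) := by
          gcongr
          linarith
      _ = Cb * Cl * Cv * Cd * nn * (C₂ + C₁) * (B * (d ^ 2 * r ^ 3 * (x * x * x) *
          ((1 + δ) * (z ^ (1 / 2 : ℝ) * z)))) := by ring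
      _ ≤ Cb * Cl * Cv * Cd * nn * (C₂ + C₁) * (B * w) := by
          rw [e1, hw]
          gcongr
  calc S ≤ _ := h
    _ = Ca * (D * (P * (I * (Cb * (1 + δ))) + P * (A * ((Cv * x * r) * (Cd * (δ *
        (nn * d ^ 2 * r ^ 2 * x * (C₂ * (R ^ (1 / 2 : ℝ) * (T / P ^ 3)) +
          C₁ * R * z)))))))) := by ring
    _ ≤ Ca * (D * (C₁ * Cb * (B * w) + Cb * Cl * Cv * Cd * nn * (C₂ + C₁) * (B * w))) := by
        gcongr
    _ = _ := by rw [hw]; ring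

end Pool.Agent.H19.DMQ.Q1
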